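import Pool.Agent.U562.WV.Stm
set_option autoImplicit false

/-! Project WV, job PCS. -/

open MeasureTheory Set Metric
open scoped ENNReal NNReal FourierTransform RealInnerProductSpace SchwartzMap

namespace Pool.Agent.U128.WV.PCS

open Pool.Agent.U562.WV

lemma wt_le_one (K : Set (E 3)) {δ : ℝ} (hδ : 0 < δ) (y : E 3) : wt K δ y ≤ 1 := by
  unfold wt
  rw [← ENNReal.ofReal_one]
  apply ENNReal.ofReal_le_ofReal
  rw [div_le_one (lt_of_lt_of_le hδ (le_max_left _ _))]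
  exact le_max_left _ _

lemma wt_meas (K : Set (E 3)) (δ : ℝ) : Measurable (wt K δ) := by
  unfold wt
  apply ENNReal.measurable_ofReal.comp
  exact measurable_const.div (measurable_const.max (continuous_infDist_pt K).measurable)

lemma pow_mix (x y : ℝ≥0∞) {p : ℝ} (hp : 3 ≤ p) :
    x ^ (p - 2) * y ^ 2 ≤ x ^ p + y ^ p := by
  have h2 : ∀ z : ℝ≥0∞, z ^ (p - 2) * z ^ 2 = z ^ p := by
    intro z
    rw [← ENNReal.rpow_two, ← ENNReal.rpow_add_of_nonneg _ _ (by linarith) (by norm_num)]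
    norm_num
  rcases le_total x y with h | h
  · calc x ^ (p - 2) * y ^ 2 ≤ y ^ (p - 2) * y ^ 2 :=
          mul_le_mul_left (ENNReal.rpow_le_rpow h (by linarith)) _
      _ = y ^ p := h2 y
      _ ≤ _ := le_add_self
  · calc x ^ (p - 2) * y ^ 2 ≤ x ^ (p - 2) * x ^ 2 := by
          gcongr
      _ = x ^ p := h2 x
      _ ≤ _ := le_self_add

lemma key_pt (w w' x x' g D : ℝ≥0∞) {p : ℝ} (hp : 3 ≤ p) (hw : w ≤ 1) (hw' : w' ≤ 1)
    (hg : g ≤ w' * x') :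
    (w * x) ^ (p - 2) * (g ^ 2 / D) ≤ x ^ p * (w' / D) + x' ^ p * (w / D) := by
  have h1 : (w * x) ^ (p - 2) ≤ w * x ^ (p - 2) := by
    rw [ENNReal.mul_rpow_of_nonneg _ _ (by linarith)]
    gcongr
    exact ENNReal.rpow_le_self_of_le_one hw (by linarith)
  have h2 : g ^ 2 ≤ w' * x' ^ 2 := by
    calc g ^ 2 ≤ (w' * x') ^ 2 := by gcongr
      _ = (w' * w') * x' ^ 2 := by ring
      _ ≤ (w' * 1) * x' ^ 2 := by gcongr
      _ = w' * x' ^ 2 := by rw [mul_one]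
  have h3 : (w * x) ^ (p - 2) * g ^ 2 ≤ x ^ p * w' + x' ^ p * w := by
    calc (w * x) ^ (p - 2) * g ^ 2 ≤ (w * x ^ (p - 2)) * (w' * x' ^ 2) := by gcongr
      _ = (w * w') * (x ^ (p - 2) * x' ^ 2) := by ring
      _ ≤ (w * w') * (x ^ p + x' ^ p) := by gcongr; exact pow_mix _ _ hp
      _ = w * w' * x ^ p + w * w' * x' ^ p := by ring
      _ ≤ 1 * w' * x ^ p + w * 1 * x' ^ p := by gcongr
      _ = _ := by ring
  calc (w * x) ^ (p - 2) * (g ^ 2 / D) = ((w * x) ^ (p - 2) * g ^ 2) / D := by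
        rw [mul_div_assoc]
    _ ≤ (x ^ p * w' + x' ^ p * w) / D := by gcongr
    _ = _ := by rw [ENNReal.add_div, mul_div_assoc, mul_div_assoc]

/-- the bilinear estimate -/
lemma bil (hSCH : S_SCH) {A a : ℝ} (hA : 0 ≤ A) (ha : 0 < a) (ha1 : a < 1) :
    ∃ C : ℝ, 0 < C ∧ ∀ (K : Set (E 3)), Thin A K → ∀ (δ T p : ℝ), 0 < δ → 0 < T → 3 ≤ p →
      ∀ (g : E 3 → ℂ) (Ψ : E 3 → ℝ≥0∞), Measurable Ψ → (∀ y, ‖g y‖ₑ ≤ wt K δ y * Ψ y) →
      ∫⁻ y, (wt K δ y * Ψ y) ^ (p - 2) * ∫⁻ z in ball y (2 * T + 2), ‖g z‖ₑ ^ 2 / ‖z - y‖ₑ ^ 2 ≤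
        ENNReal.ofReal (C * (1 + T) * δ ^ a) * ∫⁻ y, Ψ y ^ p := by
  obtain ⟨C, hC, hS⟩ := hSCH A a hA ha ha1
  refine ⟨4 * C, by linarith, ?_⟩
  intro K hK δ T p hδ hT hp g Ψ hΨ hg
  set R : ℝ := 2 * T + 2 with hR
  have hR0 : 0 < R := by rw [hR]; linarith
  set w : E 3 → ℝ≥0∞ := wt K δ with hw
  have hwm : Measurable w := wt_meas K δ
  have hw1 : ∀ y, w y ≤ 1 := wt_le_one K hδ
  have hbd : ∀ b : E 3, ∫⁻ y in ball b R, w y / ‖y - b‖ₑ ^ 2 ≤
      ENNReal.ofReal (2 * C * (1 + T) * δ ^ a) := by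
    intro b
    refine (hS K hK δ R b hδ hR0).trans (ENNReal.ofReal_le_ofReal ?_)
    have h1 : R ^ (1 - a) ≤ 2 * (1 + T) := by
      calc R ^ (1 - a) ≤ R ^ (1 : ℝ) :=
            Real.rpow_le_rpow_of_exponent_le (by rw [hR]; linarith) (by linarith)
        _ = 2 * (1 + T) := by rw [Real.rpow_one, hR]; ring
    have h2 : 0 ≤ δ ^ a := Real.rpow_nonneg hδ.le _
    calc C * R ^ (1 - a) * δ ^ a ≤ C * (2 * (1 + T)) * δ ^ a := by gcongr
      _ = _ := by ring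
  -- the two kernels
  set G1 : E 3 → E 3 → ℝ≥0∞ := fun y z =>
    Ψ y ^ p * (ball y R).indicator (fun z => w z / ‖z - y‖ₑ ^ 2) z with hG1
  set G2 : E 3 → E 3 → ℝ≥0∞ := fun y z =>
    Ψ z ^ p * (ball z R).indicator (fun y => w y / ‖y - z‖ₑ ^ 2) y with hG2
  have hset : MeasurableSet {q : E 3 × E 3 | dist q.2 q.1 < R} :=
    (isOpen_lt (continuous_snd.dist continuous_fst) continuous_const).measurableSet
  have hk : Measurable (fun q : E 3 × E 3 =>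
      {q : E 3 × E 3 | dist q.2 q.1 < R}.indicator
        (fun q => w q.2 / ‖q.2 - q.1‖ₑ ^ 2) q) := by
    apply Measurable.indicator _ hset
    exact (hwm.comp measurable_snd).div ((measurable_snd.sub measurable_fst).enorm.pow_const 2)
  have hG1m : Measurable (fun q : E 3 × E 3 => G1 q.1 q.2) := by
    have h : (fun q : E 3 × E 3 => G1 q.1 q.2) = fun q : E 3 × E 3 => Ψ q.1 ^ p *
        {q : E 3 × E 3 | dist q.2 q.1 < R}.indicator
        (fun q => w q.2 / ‖q.2 - q.1‖ₑ ^ 2) q := by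
      funext q
      simp only [hG1, indicator, mem_ball, mem_ofPred_eq]
    rw [h]
    exact ((hΨ.comp measurable_fst).pow_const p).mul hk
  have hG2m : Measurable (fun q : E 3 × E 3 => G2 q.1 q.2) := by
    have h : (fun q : E 3 × E 3 => G2 q.1 q.2) = fun q : E 3 × E 3 => G1 q.2 q.1 := by
      funext q; rfl
    rw [h]
    exact hG1m.comp measurable_swap
  have hI1 : ∫⁻ y, ∫⁻ z, G1 y z ≤
      ENNReal.ofReal (2 * C * (1 + T) * δ ^ a) * ∫⁻ y, Ψ y ^ p := by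
    rw [← lintegral_const_mul _ (hΨ.pow_const p)]
    apply lintegral_mono
    intro y
    simp only [hG1]
    rw [lintegral_const_mul _ (by
      apply Measurable.indicator _ measurableSet_ball
      exact hwm.div ((measurable_id.sub_const y).enorm.pow_const 2)),
      lintegral_indicator measurableSet_ball, mul_comm]
    gcongr
    exact hbd y
  have hI2 : ∫⁻ y, ∫⁻ z, G2 y z = ∫⁻ y, ∫⁻ z, G1 y z := by
    rw [lintegral_lintegral_swap hG2m.aemeasurable]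
  calc ∫⁻ y, (w y * Ψ y) ^ (p - 2) * ∫⁻ z in ball y R, ‖g z‖ₑ ^ 2 / ‖z - y‖ₑ ^ 2
      ≤ ∫⁻ y, ∫⁻ z, (G1 y z + G2 y z) := by
        apply lintegral_mono
        intro y
        simp only
        rw [← lintegral_indicator measurableSet_ball]
        refine (lintegral_const_mul_le _ _).trans ?_
        apply lintegral_mono
        intro z
        simp only [hG1, hG2]
        by_cases hz : z ∈ ball y R
        · have hz' : y ∈ ball z R := mem_ball_comm.mp hz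
          rw [indicator_of_mem hz, indicator_of_mem hz, indicator_of_mem hz']
          have hnn : ‖y - z‖ₑ = ‖z - y‖ₑ := enorm_sub_rev y z
          rw [hnn]
          exact key_pt (w y) (w z) (Ψ y) (Ψ z) ‖g z‖ₑ (‖z - y‖ₑ ^ 2) hp (hw1 y) (hw1 z) (hg z)
        · rw [indicator_of_notMem hz]
          simp
    _ = ∫⁻ y, ((∫⁻ z, G1 y z) + ∫⁻ z, G2 y z) := by
        apply lintegral_congr
        intro y
        exact lintegral_add_left (hG1m.comp measurable_prodMk_left) _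
    _ = (∫⁻ y, ∫⁻ z, G1 y z) + ∫⁻ y, ∫⁻ z, G2 y z :=
        lintegral_add_left hG1m.lintegral_prod_right' _
    _ ≤ ENNReal.ofReal (2 * C * (1 + T) * δ ^ a) * (∫⁻ y, Ψ y ^ p) +
        ENNReal.ofReal (2 * C * (1 + T) * δ ^ a) * ∫⁻ y, Ψ y ^ p := by
        rw [hI2]
        gcongr
    _ = ENNReal.ofReal (4 * C * (1 + T) * δ ^ a) * ∫⁻ y, Ψ y ^ p := by
        rw [← add_mul, ← ENNReal.ofReal_add (by positivity) (by positivity)]
        congr 2
        ring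

/-- multipliers with a bound keep integrability against a Schwartz function -/
lemma int_mul (f : 𝓢(E 3, ℂ)) (m : E 3 → ℂ) (hm : Continuous m) (M : ℝ) (hM : ∀ ξ, ‖m ξ‖ ≤ M) :
    Integrable (fun ξ => m ξ * 𝓕 (f : E 3 → ℂ) ξ) ∧
      Integrable (fun ξ => (‖ξ‖ : ℂ) * (m ξ * 𝓕 (f : E 3 → ℂ) ξ)) := by
  have hF : (𝓕 (f : E 3 → ℂ)) = ((𝓕 f : 𝓢(E 3, ℂ)) : E 3 → ℂ) := (SchwartzMap.fourier_coe f).symm
  rw [hF]
  constructor
  · exact ((𝓕 f : 𝓢(E 3, ℂ)).integrable).bdd_mul hm.aestronglyMeasurable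
      (Filter.Eventually.of_forall hM)
  · have h1 := ((𝓕 f : 𝓢(E 3, ℂ)).integrable_pow_mul volume 1).const_mul M
    refine h1.mono' ?_ (Filter.Eventually.of_forall fun ξ => ?_)
    · exact ((Complex.continuous_ofReal.comp continuous_norm).mul
        (hm.mul (𝓕 f : 𝓢(E 3, ℂ)).continuous)).aestronglyMeasurable
    · rw [norm_mul, norm_mul, Complex.norm_real, norm_norm, pow_one]
      have h0 := hM ξ
      have h1 : 0 ≤ ‖ξ‖ * ‖(𝓕 f : 𝓢(E 3, ℂ)) ξ‖ := by positivity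
      calc ‖ξ‖ * (‖m ξ‖ * ‖(𝓕 f : 𝓢(E 3, ℂ)) ξ‖) = ‖m ξ‖ * (‖ξ‖ * ‖(𝓕 f : 𝓢(E 3, ℂ)) ξ‖) := by ring
        _ ≤ M * (‖ξ‖ * ‖(𝓕 f : 𝓢(E 3, ℂ)) ξ‖) := by gcongr

lemma ht_cont (a : ℝ) : Continuous (ht a) := by
  unfold ht
  fun_prop

lemma ht_norm {a : ℝ} (ha : 0 ≤ a) (ξ : E 3) : ‖ht a ξ‖ ≤ 1 := by
  unfold ht
  rw [Complex.norm_real, Real.norm_eq_abs, abs_of_pos (Real.exp_pos _), Real.exp_le_one_iff]
  have : 0 ≤ 4 * Real.pi ^ 2 * a * ‖ξ‖ ^ 2 := by positivity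
  linarith

theorem t_PCS : S_KIR → S_MAIN → S_TRIV → S_SCH → S_PIE → S_LOW → S_PCS := by
  intro hKIR hMAIN hTRIV hSCH hPIE hLOW A p a hA hp ha ha1
  obtain ⟨C0, hC0, hbil⟩ := bil hSCH hA ha ha1
  obtain ⟨C1, hC1, hpie⟩ := hPIE p (by linarith)
  obtain ⟨C2, hC2, hlow⟩ := hLOW p (by linarith)
  refine ⟨C0 * C1 + C2, by positivity, ?_⟩
  intro K hK f δ T hδ hT u v hu1 hu2 hv1 hv2
  have hu0 : 0 ≤ u := le_trans (by positivity) hu1
  have hv0 : 0 ≤ v := le_trans (by positivity) hv1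
  have hNm1 : (∫⁻ y, ‖f y‖ₑ ^ p) ≤ Nm K p f := by unfold Nm; exact le_self_add
  constructor
  · obtain ⟨Ψ, hΨm, hΨp, hΨ1, hΨ2⟩ := hpie K f δ u v hδ hu1 hu2 hv1 hv2
    have hint := int_mul f (fun ξ => ht u ξ - ht v ξ) ((ht_cont u).sub (ht_cont v)) 2 (fun ξ => by
      calc ‖ht u ξ - ht v ξ‖ ≤ ‖ht u ξ‖ + ‖ht v ξ‖ := norm_sub_le _ _
        _ ≤ 1 + 1 := add_le_add (ht_norm hu0 ξ) (ht_norm hv0 ξ)
        _ = 2 := by norm_num)
    obtain ⟨hc, hU⟩ := hKIR _ hint.1 hint.2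
    have hm := hMAIN p hp _ (fun y => wt K δ y * Ψ y) δ T hc ((wt_meas K δ).mul hΨm) hδ hT hΨ1 hΨ2
    have hb := hbil K hK δ T p hδ hT hp _ Ψ hΨm hΨ1
    simp only [hU]
    have e1 : 0 ≤ (1 + T / δ) ^ (p - 2) := by positivity
    have e2 : 0 ≤ δ ^ a := by positivity
    calc _ ≤ _ := hm
      _ ≤ ENNReal.ofReal ((1 + T / δ) ^ (p - 2)) *
          (ENNReal.ofReal (C0 * (1 + T) * δ ^ a) * ∫⁻ y, Ψ y ^ p) := by gcongr
      _ ≤ ENNReal.ofReal ((1 + T / δ) ^ (p - 2)) *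
          (ENNReal.ofReal (C0 * (1 + T) * δ ^ a) * (ENNReal.ofReal C1 * Nm K p f)) := by
          gcongr
          exact hΨp
      _ = ENNReal.ofReal (C0 * C1 * (1 + T / δ) ^ (p - 2) * (1 + T) * δ ^ a) * Nm K p f := by
          rw [← mul_assoc, ← mul_assoc, ← ENNReal.ofReal_mul e1,
            ← ENNReal.ofReal_mul (by positivity)]
          congr 2
          ring
      _ ≤ _ := by
          gcongr
          linarith
  · obtain ⟨Ψ, hΨm, hΨp, hΨ1, hΨ2⟩ := hlow f δ u hδ hu1 hu2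
    have hint := int_mul f (fun ξ => ht u ξ) (ht_cont u) 1 (fun ξ => ht_norm hu0 ξ)
    obtain ⟨hc, hU⟩ := hKIR _ hint.1 hint.2
    have hm := hTRIV p (by linarith) _ Ψ δ T hc hΨm hδ hT hΨ1 hΨ2
    simp only [hU]
    have e1 : 0 ≤ T * (1 + T / δ) ^ p := by positivity
    calc _ ≤ _ := hm
      _ ≤ ENNReal.ofReal (T * (1 + T / δ) ^ p) * (ENNReal.ofReal C2 * Nm K p f) := by
          gcongr
          exact hΨp.trans (by gcongr)
      _ = ENNReal.ofReal (C2 * T * (1 + T / δ) ^ p) * Nm K p f := by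
          rw [← mul_assoc, ← ENNReal.ofReal_mul e1]
          congr 2
          ring
      _ ≤ _ := by
          gcongr
          have : 0 ≤ C0 * C1 := by positivity
          linarith

end Pool.Agent.U128.WV.PCS
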